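import Pool.Agent.K6.H67.QSpec

/-!
# MP_377342_al, Q2: extension of invariant `HA`-neutral subspaces with a prescribed spectrum

`H` is an invertible quaternionic matrix with `H^* = -H` and `A` is `H`-Hamiltonian; `A` may be
singular. Let `N` be an `A`-invariant `HA`-neutral subspace, `S₀` the set of the eigenvalues of `A|N`
with nonzero real part, and `S` a c-set which contains `S₀`. Then there are `A`-invariant subspaces
`L₊, L₋ ⊇ N`, `L₊` maximal `HA`-nonnegative and `L₋` maximal `HA`-nonpositive, such that the set of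
the eigenvalues of `A|L₊`, and the one of `A|L₋`, with nonzero real part is `S`.

Proof. The sum `W` of the root subspaces for the elements of `S` is neutral and orthogonal to `N`, so
that `N + W` is contained in an invariant maximal nonnegative `L` (Q1). If `x ∈ L` is an eigenvector
for an eigenvalue `μ ∉ S` with `Re μ ≠ 0` then `-μ ∈ S` and `x` is neutral, so orthogonal to `W ⊆ L`,
which contains the root subspace of `-μ`, and to all other root subspaces but this one; hence `x` is in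
the kernel of `HA`, i.e. `A x = 0`, a contradiction.
-/

set_option autoImplicit false

namespace Pool.Agent.Results.MP_377342_al.PrescribedSpectrum

open Quaternion MulOpposite Matrix Pool.Agent.R713

/-- The right quaternionic subspaces of `ℍ^n`. -/
abbrev Sub (n : ℕ) : Type := Submodule ℍ[ℝ]ᵐᵒᵖ (Fin n → ℍ[ℝ])

/-- `M` is `A`-invariant. -/
def Invariant {n : ℕ} (A : Matrix (Fin n) (Fin n) ℍ[ℝ]) (M : Sub n) : Prop :=
  ∀ x ∈ M, A *ᵥ x ∈ M

/-- `M` is `G`-neutral: `x^* G y = 0` for all `x, y ∈ M`. -/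
def Neutral {n : ℕ} (G : Matrix (Fin n) (Fin n) ℍ[ℝ]) (M : Sub n) : Prop :=
  ∀ x ∈ M, ∀ y ∈ M, star x ⬝ᵥ (G *ᵥ y) = 0

/-- `M` is `G`-nonnegative: `x^* G x` is a nonnegative real number for all `x ∈ M`. -/
def Nonneg {n : ℕ} (G : Matrix (Fin n) (Fin n) ℍ[ℝ]) (M : Sub n) : Prop :=
  ∀ x ∈ M, ∃ r : ℝ, 0 ≤ r ∧ star x ⬝ᵥ (G *ᵥ x) = (r : ℍ[ℝ])

/-- `M` is `G`-nonpositive: `x^* G x` is a nonpositive real number for all `x ∈ M`. -/
def Nonpos {n : ℕ} (G : Matrix (Fin n) (Fin n) ℍ[ℝ]) (M : Sub n) : Prop :=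
  ∀ x ∈ M, ∃ r : ℝ, r ≤ 0 ∧ star x ⬝ᵥ (G *ᵥ x) = (r : ℍ[ℝ])

/-- `M` has the property `P` and is not properly contained in another subspace with it. -/
def Maximal {n : ℕ} (P : Sub n → Prop) (M : Sub n) : Prop :=
  P M ∧ ∀ M' : Sub n, M ≤ M' → P M' → M' = M

/-- `a` is an eigenvalue of the restriction of `A` to `M`: `A x = x a` for a nonzero `x ∈ M`. -/
def IsEigenvalue {n : ℕ} (A : Matrix (Fin n) (Fin n) ℍ[ℝ]) (M : Sub n) (a : ℍ[ℝ]) : Prop :=
  ∃ x ∈ M, x ≠ 0 ∧ A *ᵥ x = fun i => x i * a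

/-- The set of the eigenvalues of `A|M` with nonzero real part. -/
def Spec {n : ℕ} (A : Matrix (Fin n) (Fin n) ℍ[ℝ]) (M : Sub n) : Set ℍ[ℝ] :=
  {a | IsEigenvalue A M a ∧ a.re ≠ 0}

/-- The first three properties of a c-set: a set of eigenvalues of `A` with nonzero real parts,
closed under similarity of quaternions, such that `a ∈ S` implies `-a ∉ S`. -/
def PreCSet {n : ℕ} (A : Matrix (Fin n) (Fin n) ℍ[ℝ]) (S : Set ℍ[ℝ]) : Prop :=
  (∀ a ∈ S, IsEigenvalue A ⊤ a) ∧ (∀ a ∈ S, a.re ≠ 0) ∧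
    (∀ a ∈ S, ∀ c : ℍ[ℝ], c ≠ 0 → c⁻¹ * a * c ∈ S) ∧ ∀ a ∈ S, -a ∉ S

/-- A c-set of `A`: inclusion-maximal with these properties. -/
def IsCSet {n : ℕ} (A : Matrix (Fin n) (Fin n) ℍ[ℝ]) (S : Set ℍ[ℝ]) : Prop :=
  PreCSet A S ∧ ∀ S' : Set ℍ[ℝ], PreCSet A S' → S ⊆ S' → S' = S

variable {n : ℕ}

/-- the linear map given by a matrix -/
def lin (A : Matrix (Fin n) (Fin n) ℍ[ℝ]) : (Fin n → ℍ[ℝ]) →ₗ[ℍ[ℝ]ᵐᵒᵖ] (Fin n → ℍ[ℝ]) where
  toFun x := A *ᵥ x
  map_add' x y := Matrix.mulVec_add A x y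
  map_smul' q x := Matrix.mulVec_smul A q x

theorem qherm (G : Matrix (Fin n) (Fin n) ℍ[ℝ]) (hG : Gᴴ = G) :
    QHerm (fun x y : Fin n → ℍ[ℝ] => star x ⬝ᵥ (G *ᵥ y)) where
  add_right x y z := by
    simp only [Matrix.mulVec_add, dotProduct_add]
  smul_right x y q := by
    simp only [Matrix.mulVec_smul]
    simp only [dotProduct, Pi.smul_apply, op_smul_eq_mul, Finset.sum_mul, mul_assoc]
  symm x y := by
    rw [Matrix.star_dotProduct, Matrix.star_mulVec, hG, ← Matrix.dotProduct_mulVec]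

theorem skew (H A : Matrix (Fin n) (Fin n) ℍ[ℝ]) (hA : H * A = -(Aᴴ * H)) (x y : Fin n → ℍ[ℝ]) :
    star (A *ᵥ x) ⬝ᵥ ((H * A) *ᵥ y) = -(star x ⬝ᵥ ((H * A) *ᵥ (A *ᵥ y))) := by
  have h1 : Aᴴ * (H * A) = -(H * A * A) := by
    rw [← mul_assoc, hA, neg_mul, neg_neg]
  rw [Matrix.star_mulVec, ← Matrix.dotProduct_mulVec, Matrix.mulVec_mulVec, h1,
    Matrix.neg_mulVec, dotProduct_neg, Matrix.mulVec_mulVec]

instance finiteV : Module.Finite ℍ[ℝ]ᵐᵒᵖ (Fin n → ℍ[ℝ]) := by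
  have : Module.Finite ℍ[ℝ]ᵐᵒᵖ ℍ[ℝ] := by
    refine ⟨⟨{1}, ?_⟩⟩
    rw [Submodule.eq_top_iff']
    intro x
    rw [Finset.coe_singleton, Submodule.mem_span_singleton]
    exact ⟨op x, by rw [op_smul_eq_mul, one_mul]⟩
  infer_instance

theorem isEig_iff (A : Matrix (Fin n) (Fin n) ℍ[ℝ]) (M : Sub n) (a : ℍ[ℝ]) :
    Pool.Agent.K6.H67.QSpec.IsEig (lin A) M a ↔ IsEigenvalue A M a := Iff.rfl

/-- the nonnegative case -/
theorem main (G A : Matrix (Fin n) (Fin n) ℍ[ℝ]) (hG : Gᴴ = G)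
    (hA : ∀ x y, star (A *ᵥ x) ⬝ᵥ (G *ᵥ y) = -(star x ⬝ᵥ (G *ᵥ (A *ᵥ y))))
    (hker : ∀ x, G *ᵥ x = 0 → A *ᵥ x = 0)
    (N : Sub n) (hN : Invariant A N) (hneu : Neutral G N) (S : Set ℍ[ℝ]) (hS : IsCSet A S)
    (h0 : Spec A N ⊆ S) :
    ∃ L : Sub n, N ≤ L ∧ Invariant A L ∧ Maximal (Nonneg G) L ∧ Spec A L = S := by
  have hn : ∀ M : Sub n, Nonneg G M ↔
      QNonneg (fun x y : Fin n → ℍ[ℝ] => star x ⬝ᵥ (G *ᵥ y)) M := by
    intro M
    constructor
    · intro h x hx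
      obtain ⟨r, hr, he⟩ := h x hx
      simp only [he]
      rw [Quaternion.re_coe]
      exact hr
    · intro h x hx
      exact ⟨_, h x hx, (qherm G hG).real x⟩
  have hpre : ∀ S', Pool.Agent.K6.H67.QSpec.PreCSet (lin A) S' ↔ PreCSet A S' := fun _ => Iff.rfl
  obtain ⟨L, h1, h2, h3, h4, h5⟩ := Pool.Agent.K6.H67.QSpec.main (qherm G hG) (lin A) hA (by
      intro x hx
      apply hker
      funext i
      have h1 := (qherm G hG).symm x (Pi.single i 1)
      rw [hx (Pi.single i 1), star_zero] at h1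
      have h2 : star (Pi.single i 1 : Fin n → ℍ[ℝ]) = Pi.single i 1 := by
        funext j
        by_cases hj : j = i
        · subst hj; simp
        · simp [Pi.single_eq_of_ne hj]
      change star (Pi.single i 1 : Fin n → ℍ[ℝ]) ⬝ᵥ (G *ᵥ x) = 0 at h1
      rw [h2, single_one_dotProduct] at h1
      exact h1)
    N hN hneu S hS.1.2.2.1 hS.1.2.1 hS.1.2.2.2 hS.1.1
    (Pool.Agent.K6.H67.QSpec.max_of hS.1 hS.2) (fun a ha hre => h0 ⟨ha, hre⟩)
  exact ⟨L, h1, h2, ⟨(hn L).2 h3, fun M hM hM' => h4 M hM ((hn M).1 hM')⟩, Set.ext h5⟩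

/-- **Answer to Q2.** For all invertible `H` with `H^* = -H`, all `H`-Hamiltonian `A`, every
`A`-invariant `HA`-neutral subspace `N` and every c-set `S` of `A` which contains the set `S₀` of the
eigenvalues of `A|N` with nonzero real part, there are `A`-invariant subspaces `L ⊇ N` that are
maximal `HA`-nonnegative and maximal `HA`-nonpositive, respectively, such that the set of the
eigenvalues of `A|L` with nonzero real part is `S`. (If `S₀ ⊆ S` then `a ∈ S₀` implies `-a ∉ S₀`.) -/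
theorem result (n : ℕ) (H A : Matrix (Fin n) (Fin n) ℍ[ℝ]) (hH : IsUnit H) (hH' : Hᴴ = -H)
    (hA : H * A = -(Aᴴ * H)) (N : Sub n) (hN : Invariant A N) (hneu : Neutral (H * A) N)
    (S : Set ℍ[ℝ]) (hS : IsCSet A S) (h0 : Spec A N ⊆ S) :
    (∃ L : Sub n, N ≤ L ∧ Invariant A L ∧ Maximal (Nonneg (H * A)) L ∧ Spec A L = S) ∧
    (∃ L : Sub n, N ≤ L ∧ Invariant A L ∧ Maximal (Nonpos (H * A)) L ∧ Spec A L = S) := by
  have hG : (H * A)ᴴ = H * A := by
    rw [Matrix.conjTranspose_mul, hH', mul_neg, ← hA]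
  have hker : ∀ x, (H * A) *ᵥ x = 0 → A *ᵥ x = 0 := by
    intro x hx
    obtain ⟨u, rfl⟩ := hH
    have h1 := congrArg (fun v => (↑u⁻¹ : Matrix (Fin n) (Fin n) ℍ[ℝ]) *ᵥ v) hx
    simpa [Matrix.mulVec_mulVec, ← mul_assoc] using h1
  refine ⟨main (H * A) A hG (skew H A hA) hker N hN hneu S hS h0, ?_⟩
  have hG' : (-(H * A))ᴴ = -(H * A) := by rw [Matrix.conjTranspose_neg, hG]
  obtain ⟨L, h1, h2, ⟨h3, h4⟩, h5⟩ := main (-(H * A)) A hG' (by
      intro x y
      rw [Matrix.neg_mulVec, Matrix.neg_mulVec, dotProduct_neg, dotProduct_neg, skew H A hA])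
    (by
      intro x hx
      apply hker
      rw [Matrix.neg_mulVec, neg_eq_zero] at hx
      exact hx)
    N hN (by
      intro x hx y hy
      rw [Matrix.neg_mulVec, dotProduct_neg, hneu x hx y hy, neg_zero]) S hS h0
  have hn : ∀ M : Sub n, Nonneg (-(H * A)) M ↔ Nonpos (H * A) M := by
    intro M
    constructor
    · intro h x hx
      obtain ⟨r, hr, he⟩ := h x hx
      refine ⟨-r, by linarith, ?_⟩
      rw [Matrix.neg_mulVec, dotProduct_neg] at he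
      rw [Quaternion.coe_neg, ← he, neg_neg]
    · intro h x hx
      obtain ⟨r, hr, he⟩ := h x hx
      refine ⟨-r, by linarith, ?_⟩
      rw [Matrix.neg_mulVec, dotProduct_neg, he, Quaternion.coe_neg]
  exact ⟨L, h1, h2, ⟨(hn L).1 h3, fun M hM hM' => h4 M hM ((hn M).2 hM')⟩, h5⟩

end Pool.Agent.Results.MP_377342_al.PrescribedSpectrum
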